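import Pool.Agent.Helper48.ZE.NUM

/-!
NUM, the uniform form of the final inequality.
-/

set_option autoImplicit false

namespace Pool.Agent.Helper48.ZE

theorem numc_le (B : ℕ) (hB : 1 ≤ B) : numc B ≤ ((B + 1 : ℕ) : ℝ) ^ (69632 * B) := by
  have hm : 2 ^ 31 * B ^ 3 ≤ (B + 1) ^ 34 := by
    calc 2 ^ 31 * B ^ 3 ≤ (B + 1) ^ 31 * (B + 1) ^ 3 :=
          Nat.mul_le_mul (Nat.pow_le_pow_left (by omega) _) (Nat.pow_le_pow_left (by omega) _)
      _ = (B + 1) ^ 34 := by rw [← pow_add]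
  have h1 : (2048 * B) * (512 * B) ≤ 2 ^ 31 * B ^ 3 := by
    calc (2048 * B) * (512 * B) = 2 ^ 20 * B ^ 2 * 1 := by ring
      _ ≤ 2 ^ 20 * B ^ 2 * (2 ^ 11 * B) := Nat.mul_le_mul_left _ (by omega)
      _ = 2 ^ 31 * B ^ 3 := by ring
  have h2 : (2048 * B) * (512 * B) * (2048 * B - 1) ≤ 2 ^ 31 * B ^ 3 := by
    calc (2048 * B) * (512 * B) * (2048 * B - 1) ≤ (2048 * B) * (512 * B) * (2048 * B) :=
          Nat.mul_le_mul_left _ (Nat.sub_le _ _)
      _ = 2 ^ 31 * B ^ 3 := by ring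
  have h3 : ((2048 * B) * (512 * B)) * ((2048 * B) * (512 * B) * (2048 * B - 1)) ^ (2048 * B - 1)
      ≤ (B + 1) ^ (69632 * B) := by
    calc ((2048 * B) * (512 * B)) * ((2048 * B) * (512 * B) * (2048 * B - 1)) ^ (2048 * B - 1)
        ≤ (B + 1) ^ 34 * ((B + 1) ^ 34) ^ (2048 * B - 1) :=
          Nat.mul_le_mul (le_trans h1 hm) (Nat.pow_le_pow_left (le_trans h2 hm) _)
      _ = ((B + 1) ^ 34) ^ (2048 * B) := by
          rw [← pow_succ']
          congr 1; omega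
      _ = (B + 1) ^ (69632 * B) := by
          rw [← pow_mul]; congr 1; ring
  unfold numc
  exact_mod_cast h3

theorem numC_le (B : ℕ) (hB : 1 ≤ B) : numC B ≤ ((B + 1 : ℕ) : ℝ) ^ (139267 * B) := by
  set x : ℝ := ((B + 1 : ℕ) : ℝ) with hx
  have hx2 : 2 ≤ x := by rw [hx]; exact_mod_cast (by omega : 2 ≤ B + 1)
  have hx1 : 1 ≤ x := by linarith
  have hBx : (B:ℝ) + 1 = x := by rw [hx]; push_cast; ring
  have hB0 : (0:ℝ) ≤ B := Nat.cast_nonneg _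
  set c : ℝ := numc B with hc
  set X : ℝ := x ^ (69632 * B) with hX
  have hcX : c ≤ X := numc_le B hB
  have hc0 : 0 ≤ c := by rw [hc, numc]; exact Nat.cast_nonneg _
  have hX24 : 2 ^ 22 * x ^ 2 ≤ X := by
    calc 2 ^ 22 * x ^ 2 ≤ x ^ 22 * x ^ 2 := by
          apply mul_le_mul_of_nonneg_right _ (by positivity)
          exact pow_le_pow_left₀ (by norm_num) hx2 _
      _ = x ^ 24 := by rw [← pow_add]
      _ ≤ X := pow_le_pow_right₀ hx1 (by omega)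
  have hxx : x ≤ x ^ 2 := by nlinarith
  have hX1 : 1 ≤ X := by nlinarith
  have hlog : Real.log (c + 1) ≤ X := by
    have := Real.log_le_sub_one_of_pos (show 0 < c + 1 by linarith)
    linarith
  have hlog0 : 0 ≤ Real.log (c + 1) := Real.log_nonneg (by linarith)
  have hBB : (B:ℝ) ≤ x := by linarith
  have h1 : 2048 * (B:ℝ) ≤ X := by nlinarith
  have h2 : (512 * (B:ℝ) + 1) ≤ 512 * x := by linarith
  have h3 : 2048 * (B:ℝ) * (512 * B + 1) ≤ 1048576 * x ^ 2 := by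
    calc 2048 * (B:ℝ) * (512 * B + 1) ≤ (2048 * x) * (512 * x) :=
          mul_le_mul (by linarith) h2 (by positivity) (by positivity)
      _ = 1048576 * x ^ 2 := by ring
  have h4 : 3 * (2048 * (B:ℝ) * (512 * B + 1)) + 2 * (512 * B + 1) ≤ X := by nlinarith
  have h5 : 2048 * (B:ℝ) * (512 * B + 1) ≤ X := by nlinarith
  have h6 : (c + 1) * (Real.log (c + 1) + 2048 * B) ≤ (X + 1) * (X + X) :=
    mul_le_mul (by linarith) (by linarith) (by positivity) (by positivity)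
  have h7 : c * (3 * (2048 * (B:ℝ) * (512 * B + 1)) + 2 * (512 * B + 1)) ≤ X * X :=
    mul_le_mul hcX h4 (by positivity) (by positivity)
  have h8 : numC B ≤ 7 * X ^ 2 := by
    unfold numC
    rw [← hc]
    nlinarith
  calc numC B ≤ 7 * X ^ 2 := h8
    _ ≤ x ^ 3 * X ^ 2 := by
        apply mul_le_mul_of_nonneg_right _ (by positivity)
        have : (2:ℝ) ^ 3 ≤ x ^ 3 := pow_le_pow_left₀ (by norm_num) hx2 _
        linarith
    _ = x ^ (3 + 69632 * B * 2) := by rw [hX, ← pow_mul, ← pow_add]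
    _ ≤ x ^ (139267 * B) := pow_le_pow_right₀ hx1 (by omega)

theorem final_ineqU : ∃ D : ℕ, ∀ (B : ℕ) (L lP lY lN : ℝ) (Q q r s0 K T0 T1 : ℕ), 1 ≤ B → 1 ≤ L →
    ((B + 1 : ℕ) : ℝ) ^ (D * B) ≤ Real.log L →
    r + 1 = 2048 * B → s0 = 512 * B → K = 16 * B → L ≤ 128 * B * Real.log L * Q → Q < q →
    0 ≤ lN → lN ≤ B * Real.log L → 4 * Q * lP ≤ L → 0 ≤ lY → lY ≤ lP - Real.log L / 2 →
    T0 ≤ ((r + 1) * s0) * ((r + 1) * s0 * r) ^ r * T1 → 1 ≤ T1 → T1 ≤ q ^ r →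
    Real.log ((T0 + T1).factorial : ℝ) +
      T0 * ((3 * ((r + 1) * (q * (s0 + 1))) + 2 * (s0 + 1)) * Real.log 2) +
      T1 * ((r + 1) * (q * (s0 + 1)) * Real.log 2 + ((r + 1) * (q * (s0 + 1)) * lY + 2 * (s0 + 1) * L +
        (2 * ((r + 1) * (q * (s0 + 1))) / K + 2) * lN)) <
      ((r + 1) * s0 - 1) * q * T1 * lP := by
  refine ⟨139267, ?_⟩
  intro B L lP lY lN Q q r s0 K T0 T1 hB hL1 hL hr hs0 hK hLQ hQq hlN0 hlN hlP hlY0 hlY hT0 hT1 hT1q
  exact final_ineq_core B hB L lP lY lN Q q r s0 K T0 T1 (by linarith)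
    (le_trans (numC_le B hB) hL) hr hs0 hK hLQ hQq hlN0 hlN hlP hlY0 hlY hT0 hT1 hT1q

end Pool.Agent.Helper48.ZE
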