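import Mathlib

/-!
Pairwise independence of the points `q * n + b` modulo a prime, and the choice of the
multiplier `q` (step (2) of the note on `log c ≤ C(ε) rad(abc)^ε`).
-/

namespace Helper48.ZEF

open Finset

section field

variable {F : Type*} [Field F] [Fintype F] [DecidableEq F]

omit [Fintype F] in
lemma cnt (S I : Finset F) (p : F × F) :
    ((S.filter (fun n => p.1 * n + p.2 ∈ I)).card : ℤ)
      = ∑ n ∈ S, (if p.1 * n + p.2 ∈ I then (1:ℤ) else 0) := by
  rw [Finset.card_filter]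
  push_cast
  rfl

lemma sum_one (I : Finset F) (n : F) :
    ∑ p : F × F, (if p.1 * n + p.2 ∈ I then (1:ℤ) else 0) = Fintype.card F * I.card := by
  have hb : Function.Bijective (fun p : F × F => (p.1, p.1 * n + p.2)) := by
    rw [← Finite.injective_iff_bijective]
    intro p q h
    simp only [Prod.mk.injEq] at h
    obtain ⟨h1, h2⟩ := h
    ext
    · exact h1
    · rw [h1] at h2
      exact add_left_cancel h2
  have := hb.sum_comp (fun p : F × F => (if p.2 ∈ I then (1:ℤ) else 0))
  simp only at this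
  rw [this, Fintype.sum_prod_type]
  simp

lemma sum_two (I : Finset F) (n m : F) (h : n ≠ m) :
    ∑ p : F × F, (if p.1 * n + p.2 ∈ I then (1:ℤ) else 0) * (if p.1 * m + p.2 ∈ I then (1:ℤ) else 0)
      = (I.card : ℤ) ^ 2 := by
  have hb : Function.Bijective (fun p : F × F => (p.1 * n + p.2, p.1 * m + p.2)) := by
    rw [← Finite.injective_iff_bijective]
    intro p q h'
    simp only [Prod.mk.injEq] at h'
    obtain ⟨h1, h2⟩ := h'
    have h3 : (p.1 - q.1) * (n - m) = 0 := by linear_combination h1 - h2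
    have h4 : p.1 = q.1 := by
      rcases mul_eq_zero.mp h3 with h5 | h5
      · exact sub_eq_zero.mp h5
      · exact absurd (sub_eq_zero.mp h5) h
    ext
    · exact h4
    · rw [h4] at h1
      exact add_left_cancel h1
  have := hb.sum_comp (fun p : F × F => (if p.1 ∈ I then (1:ℤ) else 0) * (if p.2 ∈ I then (1:ℤ) else 0))
  simp only at this
  rw [this, Fintype.sum_prod_type]
  refine Eq.trans (Finset.sum_mul_sum univ univ (fun x : F => (if x ∈ I then (1:ℤ) else 0))
    (fun x : F => (if x ∈ I then (1:ℤ) else 0))).symm ?_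
  simp [sq]

lemma first_moment (S I : Finset F) :
    ∑ p : F × F, ((S.filter (fun n => p.1 * n + p.2 ∈ I)).card : ℤ)
      = S.card * (Fintype.card F * I.card) := by
  simp only [cnt]
  rw [Finset.sum_comm]
  simp only [sum_one]
  simp

lemma second_moment (S I : Finset F) :
    ∑ p : F × F, ((S.filter (fun n => p.1 * n + p.2 ∈ I)).card : ℤ) ^ 2
      = S.card * (Fintype.card F * I.card) + S.card * (S.card - 1) * (I.card : ℤ) ^ 2 := by
  simp only [cnt, sq (∑ n ∈ S, _), Finset.sum_mul_sum]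
  rw [Finset.sum_comm]
  have h1 : ∀ n ∈ S, ∑ p : F × F, ∑ m ∈ S, (if p.1 * n + p.2 ∈ I then (1:ℤ) else 0)
        * (if p.1 * m + p.2 ∈ I then (1:ℤ) else 0)
      = Fintype.card F * I.card + (S.card - 1) * (I.card : ℤ) ^ 2 := by
    intro n hn
    rw [Finset.sum_comm]
    rw [← Finset.add_sum_erase S _ hn]
    have h2 : ∑ p : F × F, (if p.1 * n + p.2 ∈ I then (1:ℤ) else 0)
        * (if p.1 * n + p.2 ∈ I then (1:ℤ) else 0) = Fintype.card F * I.card := by
      rw [← sum_one I n]
      refine Finset.sum_congr rfl fun p _ => ?_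
      split_ifs <;> simp
    rw [h2]
    congr 1
    rw [Finset.sum_congr rfl (fun m hm => sum_two I n m (Finset.ne_of_mem_erase hm).symm)]
    rw [Finset.sum_const, Finset.card_erase_of_mem hn]
    have : 1 ≤ S.card := Finset.card_pos.mpr ⟨n, hn⟩
    rw [nsmul_eq_mul, Nat.cast_sub this]
    simp
  rw [Finset.sum_congr rfl h1, Finset.sum_const, nsmul_eq_mul]
  ring

/-- The number of pairs `(a, b)` such that the line `n ↦ a n + b` misses `I` on `S`. -/
lemma bad_pairs (S I : Finset F) :
    (univ.filter (fun p : F × F => ∀ n ∈ S, p.1 * n + p.2 ∉ I)).card * (S.card * I.card)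
      ≤ (Fintype.card F) ^ 3 := by
  set Z := univ.filter (fun p : F × F => ∀ n ∈ S, p.1 * n + p.2 ∉ I) with hZ
  set c : F × F → ℤ := fun p => ((S.filter (fun n => p.1 * n + p.2 ∈ I)).card : ℤ) with hc
  set Q : ℤ := ((Fintype.card F : ℕ) : ℤ) with hQ
  have hQ0 : 0 < Q := by
    rw [hQ]; exact_mod_cast Fintype.card_pos
  by_cases h0 : S.card * I.card = 0
  · rw [h0]; simp
  have hpos : (0:ℤ) < (S.card : ℤ) * I.card := by
    have : 0 < S.card * I.card := Nat.pos_of_ne_zero h0
    exact_mod_cast this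
  have hvar : ∑ p : F × F, (Q * c p - S.card * I.card) ^ 2
      = Q ^ 3 * (S.card * I.card) - Q ^ 2 * S.card * (I.card : ℤ) ^ 2 := by
    have h1 : ∀ p : F × F, (Q * c p - S.card * I.card) ^ 2
        = Q ^ 2 * (c p) ^ 2 - 2 * Q * (S.card * I.card) * c p + ((S.card : ℤ) * I.card) ^ 2 := by
      intro p; ring
    simp only [h1]
    rw [Finset.sum_add_distrib, Finset.sum_sub_distrib, ← Finset.mul_sum, ← Finset.mul_sum,
      second_moment, first_moment]
    simp only [Finset.sum_const, Finset.card_univ, Fintype.card_prod, nsmul_eq_mul]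
    push_cast
    rw [← hQ]
    ring
  have hle : ∑ p ∈ Z, (Q * c p - S.card * I.card) ^ 2 ≤ ∑ p : F × F, (Q * c p - S.card * I.card) ^ 2 :=
    Finset.sum_le_sum_of_subset_of_nonneg (Finset.subset_univ _) (fun _ _ _ => sq_nonneg _)
  have hZc : ∀ p ∈ Z, (Q * c p - S.card * I.card) ^ 2 = ((S.card : ℤ) * I.card) ^ 2 := by
    intro p hp
    have : c p = 0 := by
      simp only [hc]
      rw [Finset.filter_false_of_mem]
      · simp
      · exact (Finset.mem_filter.mp hp).2
    rw [this]; ring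
  rw [Finset.sum_congr rfl hZc, Finset.sum_const, nsmul_eq_mul, hvar] at hle
  have h3 : (Z.card : ℤ) * ((S.card : ℤ) * I.card) * ((S.card : ℤ) * I.card)
      ≤ Q ^ 3 * ((S.card : ℤ) * I.card) := by
    have : 0 ≤ Q ^ 2 * S.card * (I.card : ℤ) ^ 2 := by positivity
    nlinarith
  have h4 := le_of_mul_le_mul_right h3 hpos
  rw [hQ] at h4
  exact_mod_cast h4

end field

/-- The `i`-th arc of `ZMod Q`. -/
def arc (Q G i : ℕ) [NeZero Q] : Finset (ZMod Q) :=
  univ.filter (fun x => i * Q ≤ G * x.val ∧ G * x.val < (i + 1) * Q)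

lemma arc_card (Q G i : ℕ) [NeZero Q] (hG : 0 < G) (hi : i < G) :
    Q / G ≤ (arc Q G i).card := by
  set u := (i * Q + G - 1) / G with hu
  have h1 : G * u ≤ i * Q + G - 1 := Nat.mul_div_le _ _
  have h2 : i * Q ≤ G * u := by
    have := Nat.lt_mul_div_succ (i * Q + G - 1) hG
    rw [← hu] at this
    have h3 : G * (u + 1) = G * u + G := by ring
    omega
  have h3 : G * (Q / G) ≤ Q := Nat.mul_div_le _ _
  have hkey : ∀ j < Q / G, i * Q ≤ G * (u + j) ∧ G * (u + j) < (i + 1) * Q ∧ u + j < Q := by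
    intro j hj
    have h4 : G * (j + 1) ≤ G * (Q / G) := Nat.mul_le_mul_left _ hj
    have h5 : G * (u + j) = G * u + G * j := by ring
    have h6 : G * (j + 1) = G * j + G := by ring
    have h7 : (i + 1) * Q = i * Q + Q := by ring
    have h8 : G * (u + j) < (i + 1) * Q := by omega
    refine ⟨by omega, h8, ?_⟩
    have h9 : (i + 1) * Q ≤ G * Q := Nat.mul_le_mul_right _ hi
    exact Nat.lt_of_mul_lt_mul_left (lt_of_lt_of_le h8 h9)
  have hinj : Set.InjOn (fun j : ℕ => ((u + j : ℕ) : ZMod Q)) (Finset.range (Q / G)) := by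
    intro j hj j' hj' h
    have hj1 := (hkey j (Finset.mem_range.mp hj)).2.2
    have hj2 := (hkey j' (Finset.mem_range.mp hj')).2.2
    have h' := congrArg ZMod.val h
    simp only at h'
    rw [ZMod.val_natCast_of_lt hj1, ZMod.val_natCast_of_lt hj2] at h'
    omega
  rw [← Finset.card_range (Q / G), ← Finset.card_image_of_injOn hinj]
  refine Finset.card_le_card ?_
  intro x hx
  obtain ⟨j, hj, rfl⟩ := Finset.mem_image.mp hx
  have hk := hkey j (Finset.mem_range.mp hj)
  simp only [arc, Finset.mem_filter, Finset.mem_univ, true_and]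
  rw [ZMod.val_natCast_of_lt hk.2.2]
  exact ⟨hk.1, hk.2.1⟩

/-- `Good Q G S q`: for some shift `b`, every arc `[i Q / G, (i+1) Q / G)` contains a point
`(q n + b) % Q` with `n ∈ S`. -/
def Good (Q G : ℕ) (S : Finset ℕ) (q : ℕ) : Prop :=
  ∃ b, ∀ i < G, ∃ n ∈ S, i * Q ≤ G * ((q * n + b) % Q) ∧ G * ((q * n + b) % Q) < (i + 1) * Q

lemma good_mod (Q G : ℕ) (S : Finset ℕ) (q : ℕ) : Good Q G S (q % Q) ↔ Good Q G S q := by
  unfold Good
  have : ∀ n b, (q % Q * n + b) % Q = (q * n + b) % Q := by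
    intro n b
    rw [Nat.add_mod, Nat.mod_mul_mod, ← Nat.add_mod]
  simp only [this]

open Classical in
theorem dense_q (Q G : ℕ) (hQ : Q.Prime) (hG : 0 < G) (hGQ : 2 * G ≤ Q) (S : Finset ℕ)
    (hS : ∀ n ∈ S, n < Q) :
    ((Finset.range Q).filter (fun q => ¬ Good Q G S q)).card * S.card ≤ 2 * G ^ 2 * Q := by
  have : Fact Q.Prime := ⟨hQ⟩
  set B := (Finset.range Q).filter (fun q => ¬ Good Q G S q) with hB
  set T : Finset (ZMod Q) := S.image (fun n : ℕ => (n : ZMod Q)) with hT
  have hinj : Set.InjOn (fun n : ℕ => (n : ZMod Q)) (Finset.range Q) := by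
    intro j hj j' hj' h
    have h' := congrArg ZMod.val h
    simp only at h'
    rwa [ZMod.val_natCast_of_lt (Finset.mem_range.mp hj),
      ZMod.val_natCast_of_lt (Finset.mem_range.mp hj')] at h'
  have hTc : T.card = S.card := by
    rw [hT]
    refine Finset.card_image_of_injOn (hinj.mono ?_)
    intro n hn
    exact Finset.mem_coe.mpr (Finset.mem_range.mpr (hS n hn))
  set Z : ℕ → Finset (ZMod Q × ZMod Q) := fun i =>
    univ.filter (fun p : ZMod Q × ZMod Q => ∀ n ∈ T, p.1 * n + p.2 ∉ arc Q G i) with hZ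
  have hZc : ∀ i < G, (Z i).card * S.card ≤ 2 * G * Q ^ 2 := by
    intro i hi
    have h1 := bad_pairs T (arc Q G i)
    rw [ZMod.card, hTc] at h1
    have h2 := arc_card Q G i hG hi
    have h3 : Q ≤ 2 * G * (Q / G) := by
      have := Nat.lt_mul_div_succ Q hG
      have h4 : G * (Q / G + 1) = G * (Q / G) + G := by ring
      have h5 : 2 * G * (Q / G) = 2 * (G * (Q / G)) := by ring
      omega
    have h6 : (Z i).card * S.card * Q ≤ 2 * G * Q ^ 2 * Q := by
      calc (Z i).card * S.card * Q ≤ (Z i).card * S.card * (2 * G * (Q / G)) :=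
            Nat.mul_le_mul_left _ h3
        _ ≤ (Z i).card * S.card * (2 * G * (arc Q G i).card) :=
            Nat.mul_le_mul_left _ (Nat.mul_le_mul_left _ h2)
        _ = 2 * G * ((Z i).card * (S.card * (arc Q G i).card)) := by ring
        _ ≤ 2 * G * Q ^ 3 := Nat.mul_le_mul_left _ h1
        _ = 2 * G * Q ^ 2 * Q := by ring
    exact Nat.le_of_mul_le_mul_right h6 hQ.pos
  have hsub : (B ×ˢ (univ : Finset (ZMod Q))).image (fun p : ℕ × ZMod Q => ((p.1 : ZMod Q), p.2))
      ⊆ (Finset.range G).biUnion Z := by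
    intro x hx
    obtain ⟨⟨q, b⟩, hqb, rfl⟩ := Finset.mem_image.mp hx
    have hq : q ∈ B := (Finset.mem_product.mp hqb).1
    have hng := (Finset.mem_filter.mp hq).2
    unfold Good at hng
    push Not at hng
    obtain ⟨i, hi, h⟩ := hng b.val
    refine Finset.mem_biUnion.mpr ⟨i, Finset.mem_range.mpr hi, ?_⟩
    simp only [hZ, Finset.mem_filter, Finset.mem_univ, true_and]
    intro m hm hmem
    obtain ⟨n, hn, rfl⟩ := Finset.mem_image.mp hm
    have hval : (((q : ZMod Q) * (n : ZMod Q) + b).val) = (q * n + b.val) % Q := by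
      have : ((q : ZMod Q) * (n : ZMod Q) + b) = ((q * n + b.val : ℕ) : ZMod Q) := by
        push_cast
        rw [ZMod.natCast_zmod_val]
      rw [this, ZMod.val_natCast]
    simp only [arc, Finset.mem_filter, Finset.mem_univ, true_and, hval] at hmem
    exact absurd hmem.2 (not_lt.mpr (h n hn hmem.1))
  have hcard := Finset.card_le_card hsub
  rw [Finset.card_image_of_injOn, Finset.card_product, Finset.card_univ, ZMod.card] at hcard
  · have h7 : B.card * Q ≤ ∑ i ∈ Finset.range G, (Z i).card :=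
      le_trans hcard Finset.card_biUnion_le
    have h8 : B.card * S.card * Q ≤ 2 * G ^ 2 * Q * Q := by
      calc B.card * S.card * Q = B.card * Q * S.card := by ring
        _ ≤ (∑ i ∈ Finset.range G, (Z i).card) * S.card := Nat.mul_le_mul_right _ h7
        _ = ∑ i ∈ Finset.range G, (Z i).card * S.card := by rw [Finset.sum_mul]
        _ ≤ ∑ i ∈ Finset.range G, 2 * G * Q ^ 2 :=
            Finset.sum_le_sum (fun i hi => hZc i (Finset.mem_range.mp hi))
        _ = 2 * G ^ 2 * Q * Q := by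
            rw [Finset.sum_const, Finset.card_range, smul_eq_mul]; ring
    exact Nat.le_of_mul_le_mul_right h8 hQ.pos
  · rintro ⟨q, b⟩ h1 ⟨q', b'⟩ h2 h
    simp only [Prod.mk.injEq] at h
    have hq : q ∈ B := (Finset.mem_product.mp (Finset.mem_coe.mp h1)).1
    have hq' : q' ∈ B := (Finset.mem_product.mp (Finset.mem_coe.mp h2)).1
    have := hinj (Finset.mem_coe.mpr (Finset.mem_filter.mp hq).1)
      (Finset.mem_coe.mpr (Finset.mem_filter.mp hq').1) h.1
    rw [this, h.2]

open Classical in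
/-- The choice of the multiplier: if the primes in `(Q, 4Q]` outnumber the bad residues and the
divisors of `N`, one of them is good. -/
theorem choice_q (Q G N : ℕ) (hQ : Q.Prime) (hG : 0 < G) (hGQ : 2 * G ≤ Q) (S : Finset ℕ)
    (hS : ∀ n ∈ S, n < Q) (hS0 : 0 < S.card)
    (hcount : 3 * (2 * G ^ 2 * Q / S.card)
        + ((Finset.Ioc Q (4 * Q)).filter (fun q => q.Prime ∧ q ∣ N)).card
      < ((Finset.Ioc Q (4 * Q)).filter Nat.Prime).card) :
    ∃ q, q.Prime ∧ Q < q ∧ q ≤ 4 * Q ∧ ¬ q ∣ N ∧ Good Q G S q := by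
  by_contra hno
  push Not at hno
  set B := (Finset.range Q).filter (fun q => ¬ Good Q G S q) with hB
  have hBc : B.card ≤ 2 * G ^ 2 * Q / S.card := by
    rw [Nat.le_div_iff_mul_le hS0]
    exact dense_q Q G hQ hG hGQ S hS
  have h4Q : ¬ Nat.Prime (4 * Q) := by
    intro h
    have h1 := (Nat.Prime.eq_one_or_self_of_dvd h 2 ⟨2 * Q, by ring⟩)
    have h2 := hQ.two_le
    omega
  have hsub : (Finset.Ioc Q (4 * Q)).filter Nat.Prime
      ⊆ (B ×ˢ Finset.range 3).image (fun p : ℕ × ℕ => p.1 + (p.2 + 1) * Q) ∪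
        ((Finset.Ioc Q (4 * Q)).filter (fun q => q.Prime ∧ q ∣ N)) := by
    intro q hq
    obtain ⟨h1, h2⟩ := Finset.mem_filter.mp hq
    obtain ⟨h3, h4⟩ := Finset.mem_Ioc.mp h1
    by_cases h5 : q ∣ N
    · refine Finset.mem_union_right _ ?_
      exact Finset.mem_filter.mpr ⟨h1, h2, h5⟩
    have h6 : q ≠ 4 * Q := by
      rintro rfl; exact h4Q h2
    refine Finset.mem_union_left _ ?_
    have h7 := hno q h2 h3 h4 h5
    refine Finset.mem_image.mpr ⟨(q % Q, q / Q - 1), ?_, ?_⟩
    · refine Finset.mem_product.mpr ⟨?_, ?_⟩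
      · refine Finset.mem_filter.mpr ⟨Finset.mem_range.mpr (Nat.mod_lt _ hQ.pos), ?_⟩
        rw [good_mod]; exact h7
      · refine Finset.mem_range.mpr ?_
        have : q / Q < 4 := by
          rw [Nat.div_lt_iff_lt_mul hQ.pos]; omega
        simp only; omega
    · have h8 : 1 ≤ q / Q := by
        rw [Nat.one_le_div_iff hQ.pos]; omega
      have h9 : q / Q - 1 + 1 = q / Q := by omega
      simp only [h9]
      have := Nat.mod_add_div q Q
      rw [mul_comm (q / Q) Q]; exact this
  have h1 := Finset.card_le_card hsub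
  have h2 := Finset.card_union_le
    ((B ×ˢ Finset.range 3).image (fun p : ℕ × ℕ => p.1 + (p.2 + 1) * Q))
    ((Finset.Ioc Q (4 * Q)).filter (fun q => q.Prime ∧ q ∣ N))
  have h3 := Finset.card_image_le (s := B ×ˢ Finset.range 3)
    (f := fun p : ℕ × ℕ => p.1 + (p.2 + 1) * Q)
  rw [Finset.card_product, Finset.card_range] at h3
  omega

end Helper48.ZEF
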