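import Mathlib

/-!
NUM: the final inequality.
-/

set_option autoImplicit false

namespace Pool.Agent.Helper48.ZE

theorem log_factorial_le (n : ℕ) : Real.log (n.factorial : ℝ) ≤ n * Real.log n := by
  rcases Nat.eq_zero_or_pos n with h | h
  · subst h; simp
  have h1 : (n.factorial : ℝ) ≤ (n:ℝ) ^ n := by exact_mod_cast Nat.factorial_le_pow n
  have h2 : (0:ℝ) < n.factorial := by exact_mod_cast Nat.factorial_pos n
  calc Real.log (n.factorial : ℝ) ≤ Real.log ((n:ℝ) ^ n) := Real.log_le_log h2 h1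
    _ = n * Real.log n := by rw [Real.log_pow]

/-- The constant `T0 / T1 ≤ numc B`. -/
noncomputable def numc (B : ℕ) : ℝ :=
  ((((2048 * B) * (512 * B)) * ((2048 * B) * (512 * B) * (2048 * B - 1)) ^ (2048 * B - 1) : ℕ) : ℝ)

/-- The lower bound which is needed for `log L`. -/
noncomputable def numC (B : ℕ) : ℝ :=
  (numc B + 1) * (Real.log (numc B + 1) + 2048 * B) +
    numc B * (3 * (2048 * B * (512 * B + 1)) + 2 * (512 * B + 1)) + 2048 * B * (512 * B + 1) + 1

theorem final_ineq_core (B : ℕ) (hB : 1 ≤ B) (L lP lY lN : ℝ) (Q q r s0 K T0 T1 : ℕ) (hLpos : 0 < L)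
    (hC : numC B ≤ Real.log L) (hr : r + 1 = 2048 * B) (hs0 : s0 = 512 * B) (hK : K = 16 * B)
    (hLQ : L ≤ 128 * B * Real.log L * Q) (hQq : Q < q) (hlN0 : 0 ≤ lN) (hlN : lN ≤ B * Real.log L)
    (hlP : 4 * Q * lP ≤ L) (hlY0 : 0 ≤ lY) (hlY : lY ≤ lP - Real.log L / 2)
    (hT0 : T0 ≤ ((r + 1) * s0) * ((r + 1) * s0 * r) ^ r * T1) (hT1 : 1 ≤ T1) (hT1q : T1 ≤ q ^ r) :
    Real.log ((T0 + T1).factorial : ℝ) +
      T0 * ((3 * ((r + 1) * (q * (s0 + 1))) + 2 * (s0 + 1)) * Real.log 2) +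
      T1 * ((r + 1) * (q * (s0 + 1)) * Real.log 2 + ((r + 1) * (q * (s0 + 1)) * lY + 2 * (s0 + 1) * L +
        (2 * ((r + 1) * (q * (s0 + 1))) / K + 2) * lN)) <
      ((r + 1) * s0 - 1) * q * T1 * lP := by
  -- constants
  set b : ℝ := (B : ℝ) with hb
  have hb1 : 1 ≤ b := by rw [hb]; exact_mod_cast hB
  set c2 : ℝ := numc B with hc2
  have hc2n : 0 ≤ c2 := by rw [hc2, numc]; exact Nat.cast_nonneg _
  set Ca : ℝ := (c2 + 1) * (Real.log (c2 + 1) + 2048 * b) with hCa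
  set Cb : ℝ := c2 * (3 * (2048 * b * (512 * b + 1)) + 2 * (512 * b + 1)) with hCb
  set Cc : ℝ := 2048 * b * (512 * b + 1) with hCc
  have hlog1 : 0 ≤ Real.log (c2 + 1) := Real.log_nonneg (by linarith)
  have hCa0 : 0 ≤ Ca := by positivity
  have hCb0 : 0 ≤ Cb := by positivity
  have hCc0 : 0 ≤ Cc := by positivity
  set la := Real.log L with hla
  have hlag : Ca + Cb + Cc + 1 ≤ la := hC
  have hlapos : 0 < la := by linarith
  have hQ0 : 0 < (Q:ℝ) := by
    rcases Nat.eq_zero_or_pos Q with h | h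
    · rw [h] at hLQ; simp at hLQ; linarith
    · exact_mod_cast h
  have hqQ : (Q:ℝ) ≤ q := by exact_mod_cast hQq.le
  have hq1 : (1:ℝ) ≤ q := by
    have : 1 ≤ q := by omega
    exact_mod_cast this
  have hq0 : (0:ℝ) < q := by linarith
  have hT1R : (1:ℝ) ≤ T1 := by exact_mod_cast hT1
  have hT1pos : (0:ℝ) < T1 := by linarith
  have hr' : r = 2048 * B - 1 := by omega
  have hrR : (r:ℝ) + 1 = 2048 * b := by rw [hb]; exact_mod_cast hr
  have hsR : (s0:ℝ) = 512 * b := by rw [hb, hs0]; push_cast; ring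
  have hKR : (K:ℝ) = 16 * b := by rw [hb, hK]; push_cast; ring
  have hr0 : (0:ℝ) ≤ r := Nat.cast_nonneg _
  -- T0
  have hT0R : (T0:ℝ) ≤ c2 * T1 := by
    have h1 : T0 ≤ ((2048 * B) * (512 * B)) * ((2048 * B) * (512 * B) * (2048 * B - 1)) ^ (2048 * B - 1) * T1 := by
      rw [hr, hs0] at hT0
      rw [hr'] at hT0
      exact hT0
    rw [hc2, numc]
    exact_mod_cast h1
  -- lP
  have hlPle : lP ≤ 32 * b * la := by
    have h1 : 4 * Q * lP ≤ 128 * b * la * Q := le_trans hlP hLQ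
    have h2 : Q * (4 * lP) ≤ Q * (128 * b * la) := by linarith
    have h3 := le_of_mul_le_mul_left h2 hQ0
    linarith
  have hlP0 : 0 < lP := by linarith
  -- (a)
  have ha : Real.log ((T0 + T1).factorial : ℝ) ≤ Ca * (T1 * q) := by
    have h1 := log_factorial_le (T0 + T1)
    have hn1 : (((T0 + T1 : ℕ)) : ℝ) ≤ (c2 + 1) * T1 := by push_cast; linarith
    have hn0 : (0:ℝ) < ((T0 + T1 : ℕ) : ℝ) := by push_cast; have := Nat.cast_nonneg (α := ℝ) T0; linarith
    have hn1' : (1:ℝ) ≤ ((T0 + T1 : ℕ) : ℝ) := by push_cast; have := Nat.cast_nonneg (α := ℝ) T0; linarith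
    have h2 : Real.log ((T0 + T1 : ℕ) : ℝ) ≤ (Real.log (c2 + 1) + 2048 * b) * q := by
      have h3 : (T1 : ℝ) ≤ (q:ℝ) ^ r := by exact_mod_cast hT1q
      have h4 : (((T0 + T1 : ℕ)) : ℝ) ≤ (c2 + 1) * (q:ℝ) ^ r :=
        le_trans hn1 (mul_le_mul_of_nonneg_left h3 (by linarith))
      have h5 : Real.log ((T0 + T1 : ℕ) : ℝ) ≤ Real.log (c2 + 1) + r * Real.log q := by
        calc Real.log ((T0 + T1 : ℕ) : ℝ) ≤ Real.log ((c2 + 1) * (q:ℝ) ^ r) := Real.log_le_log hn0 h4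
          _ = Real.log (c2 + 1) + r * Real.log q := by
              rw [Real.log_mul (by positivity) (by positivity), Real.log_pow]
      have h6 : Real.log q ≤ q := by
        have := Real.log_le_sub_one_of_pos hq0
        linarith
      have h7 : r * Real.log q ≤ (2048 * b) * q := by
        calc r * Real.log q ≤ r * q := mul_le_mul_of_nonneg_left h6 hr0
          _ ≤ (2048 * b) * q := mul_le_mul_of_nonneg_right (by linarith) hq0.le
      have h8 : Real.log (c2 + 1) ≤ Real.log (c2 + 1) * q := by nlinarith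
      linarith
    have hlogn : 0 ≤ Real.log ((T0 + T1 : ℕ) : ℝ) := Real.log_nonneg hn1'
    calc Real.log ((T0 + T1).factorial : ℝ) ≤ ((T0 + T1 : ℕ) : ℝ) * Real.log ((T0 + T1 : ℕ) : ℝ) := h1
      _ ≤ ((c2 + 1) * T1) * ((Real.log (c2 + 1) + 2048 * b) * q) :=
          mul_le_mul hn1 h2 hlogn (by positivity)
      _ = Ca * (T1 * q) := by rw [hCa]; ring
  have hlog2 : Real.log 2 ≤ 1 := by
    have := Real.log_two_lt_d9; linarith
  have hlog2p : 0 ≤ Real.log 2 := Real.log_nonneg (by norm_num)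
  -- (b)
  have hbb : (T0:ℝ) * ((3 * (((r:ℝ) + 1) * (q * (s0 + 1))) + 2 * (s0 + 1)) * Real.log 2) ≤ Cb * (T1 * q) := by
    rw [hrR, hsR]
    have h1 : (3 * (2048 * b * (q * (512 * b + 1))) + 2 * (512 * b + 1)) * Real.log 2
        ≤ (3 * (2048 * b * (512 * b + 1)) + 2 * (512 * b + 1)) * q := by
      calc (3 * (2048 * b * (q * (512 * b + 1))) + 2 * (512 * b + 1)) * Real.log 2
          ≤ (3 * (2048 * b * (q * (512 * b + 1))) + 2 * (512 * b + 1)) * 1 :=
            mul_le_mul_of_nonneg_left hlog2 (by positivity)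
        _ ≤ (3 * (2048 * b * (512 * b + 1)) + 2 * (512 * b + 1)) * q := by nlinarith
    calc (T0:ℝ) * _ ≤ (c2 * T1) * ((3 * (2048 * b * (512 * b + 1)) + 2 * (512 * b + 1)) * q) :=
          mul_le_mul hT0R h1 (by positivity) (by positivity)
      _ = Cb * (T1 * q) := by rw [hCb]; ring
  -- the rest, without T1
  have hc : ((r:ℝ) + 1) * (q * (s0 + 1)) * Real.log 2 ≤ Cc * q := by
    rw [hrR, hsR, hCc]
    calc 2048 * b * (q * (512 * b + 1)) * Real.log 2 ≤ 2048 * b * (q * (512 * b + 1)) * 1 :=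
          mul_le_mul_of_nonneg_left hlog2 (by positivity)
      _ = 2048 * b * (512 * b + 1) * q := by ring
  have hd : ((r:ℝ) + 1) * (q * (s0 + 1)) * lY ≤ 2048 * b * (512 * b + 1) * q * (lP - la / 2) := by
    rw [hrR, hsR]
    calc 2048 * b * (q * (512 * b + 1)) * lY = 2048 * b * (512 * b + 1) * q * lY := by ring
      _ ≤ _ := mul_le_mul_of_nonneg_left hlY (by positivity)
  have he : 2 * ((s0:ℝ) + 1) * L ≤ 256 * b * (512 * b + 1) * la * q := by
    rw [hsR]
    have h1 : L ≤ 128 * b * la * q := le_trans hLQ (mul_le_mul_of_nonneg_left hqQ (by positivity))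
    calc 2 * (512 * b + 1) * L ≤ 2 * (512 * b + 1) * (128 * b * la * q) :=
          mul_le_mul_of_nonneg_left h1 (by positivity)
      _ = _ := by ring
  have hf : (2 * (((r:ℝ) + 1) * (q * (s0 + 1))) / K + 2) * lN ≤ (256 * b * (512 * b + 1) + 2 * b) * la * q := by
    rw [hrR, hsR, hKR]
    have h1 : 2 * (2048 * b * (q * (512 * b + 1))) / (16 * b) = 256 * (512 * b + 1) * q := by
      field_simp; ring
    rw [h1]
    calc (256 * (512 * b + 1) * q + 2) * lN ≤ (256 * (512 * b + 1) * q + 2 * q) * (b * la) :=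
          mul_le_mul (by linarith) hlN hlN0 (by positivity)
      _ = _ := by ring
  have hsum : ((r:ℝ) + 1) * (q * (s0 + 1)) * Real.log 2 + (((r:ℝ) + 1) * (q * (s0 + 1)) * lY + 2 * (s0 + 1) * L +
        (2 * (((r:ℝ) + 1) * (q * (s0 + 1))) / K + 2) * lN)
      ≤ (Cc + 2048 * b * (512 * b + 1) * (lP - la / 2) + 256 * b * (512 * b + 1) * la
          + (256 * b * (512 * b + 1) + 2 * b) * la) * q := by
    have h1 : (Cc + 2048 * b * (512 * b + 1) * (lP - la / 2) + 256 * b * (512 * b + 1) * la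
          + (256 * b * (512 * b + 1) + 2 * b) * la) * q
        = Cc * q + (2048 * b * (512 * b + 1) * q * (lP - la / 2) + 256 * b * (512 * b + 1) * la * q
          + (256 * b * (512 * b + 1) + 2 * b) * la * q) := by ring
    rw [h1]
    linarith
  have hsum2 := mul_le_mul_of_nonneg_left hsum hT1pos.le
  have hX : (0:ℝ) < T1 * q := by positivity
  have hmain : Ca + Cb + (Cc + 2048 * b * (512 * b + 1) * (lP - la / 2) + 256 * b * (512 * b + 1) * la
          + (256 * b * (512 * b + 1) + 2 * b) * la) < (2048 * b * (512 * b) - 1) * lP := by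
    have h1 : (2048 * b + 1) * lP ≤ (2048 * b + 1) * (32 * b * la) :=
      mul_le_mul_of_nonneg_left hlPle (by positivity)
    have h2 : (0:ℝ) ≤ b * la := by positivity
    have h3 : (0:ℝ) ≤ b ^ 2 * la := by positivity
    have h4 : la ≤ b ^ 2 * la := by
      have : 1 ≤ b ^ 2 := one_le_pow₀ hb1
      exact le_mul_of_one_le_left hlapos.le this
    have h5 : (2048 * b * (512 * b) - 1) * lP - (Ca + Cb + (Cc + 2048 * b * (512 * b + 1) * (lP - la / 2)
          + 256 * b * (512 * b + 1) * la + (256 * b * (512 * b + 1) + 2 * b) * la))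
        = (2048 * b + 1) * (32 * b * la) - (2048 * b + 1) * lP + 196608 * (b ^ 2 * la) + 478 * (b * la)
          - (Ca + Cb + Cc) := by ring
    linarith
  have hfin : (((r:ℝ) + 1) * s0 - 1) * q * T1 * lP = (T1 * q) * ((2048 * b * (512 * b) - 1) * lP) := by
    rw [hrR, hsR]; ring
  rw [hfin]
  have hmain2 := mul_lt_mul_of_pos_left hmain hX
  have hexp : (T1 * q : ℝ) * (Ca + Cb + (Cc + 2048 * b * (512 * b + 1) * (lP - la / 2) + 256 * b * (512 * b + 1) * la
          + (256 * b * (512 * b + 1) + 2 * b) * la))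
      = Ca * (T1 * q) + Cb * (T1 * q) + T1 * ((Cc + 2048 * b * (512 * b + 1) * (lP - la / 2)
          + 256 * b * (512 * b + 1) * la + (256 * b * (512 * b + 1) + 2 * b) * la) * q) := by ring
  rw [hexp] at hmain2
  linarith

theorem final_ineq (B : ℕ) (hB : 1 ≤ B) : ∃ L0 : ℝ, ∀ (L lP lY lN : ℝ) (Q q r s0 K T0 T1 : ℕ), L0 ≤ L →
    r + 1 = 2048 * B → s0 = 512 * B → K = 16 * B → L ≤ 128 * B * Real.log L * Q → Q < q →
    0 ≤ lN → lN ≤ B * Real.log L → 4 * Q * lP ≤ L → 0 ≤ lY → lY ≤ lP - Real.log L / 2 →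
    T0 ≤ ((r + 1) * s0) * ((r + 1) * s0 * r) ^ r * T1 → 1 ≤ T1 → T1 ≤ q ^ r →
    Real.log ((T0 + T1).factorial : ℝ) +
      T0 * ((3 * ((r + 1) * (q * (s0 + 1))) + 2 * (s0 + 1)) * Real.log 2) +
      T1 * ((r + 1) * (q * (s0 + 1)) * Real.log 2 + ((r + 1) * (q * (s0 + 1)) * lY + 2 * (s0 + 1) * L +
        (2 * ((r + 1) * (q * (s0 + 1))) / K + 2) * lN)) <
      ((r + 1) * s0 - 1) * q * T1 * lP := by
  refine ⟨Real.exp (numC B), ?_⟩
  intro L lP lY lN Q q r s0 K T0 T1 hL hr hs0 hK hLQ hQq hlN0 hlN hlP hlY0 hlY hT0 hT1 hT1q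
  have hLpos : 0 < L := lt_of_lt_of_le (Real.exp_pos _) hL
  exact final_ineq_core B hB L lP lY lN Q q r s0 K T0 T1 hLpos
    ((Real.le_log_iff_exp_le hLpos).mpr hL) hr hs0 hK hLQ hQq hlN0 hlN hlP hlY0 hlY hT0 hT1 hT1q

end Pool.Agent.Helper48.ZE
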