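import Pool.Agent.Helper48.ZE.F
import Pool.Agent.Helper18.ZE.Defs

/-!
SEL1: few `q` have an empty arc.  SEL2: the choice of `q`.
-/

set_option autoImplicit false

namespace Pool.Agent.Helper48.ZE

open Finset Helper48.ZEF Pool.Agent.Helper18.ZE

open Classical in
theorem card_dvd_le {Q N B : ℕ} (hQ : 2 ≤ Q) (hN : N ≠ 0) (hB : (∏ p ∈ N.primeFactors, p : ℕ) ≤ Q ^ B) :
    ((Finset.Ioc Q (4 * Q)).filter (fun q => q.Prime ∧ q ∣ N)).card ≤ B := by
  set D := (Finset.Ioc Q (4 * Q)).filter (fun q => q.Prime ∧ q ∣ N) with hD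
  have h1 : D ⊆ N.primeFactors := by
    intro q hq
    obtain ⟨_, h2, h3⟩ := Finset.mem_filter.mp hq
    exact Nat.mem_primeFactors.mpr ⟨h2, h3, hN⟩
  have h2 : Q ^ D.card ≤ ∏ q ∈ D, q := by
    rw [← Finset.prod_const]
    exact Finset.prod_le_prod' fun q hq => (Finset.mem_Ioc.mp (Finset.mem_filter.mp hq).1).1.le
  have h3 : ∏ q ∈ D, q ≤ ∏ p ∈ N.primeFactors, p :=
    Finset.prod_le_prod_of_subset_of_one_le' h1 fun p hp _ => (Nat.prime_of_mem_primeFactors hp).one_lt.le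
  have h4 : Q ^ D.card ≤ Q ^ B := le_trans h2 (le_trans h3 hB)
  exact (Nat.pow_le_pow_iff_right (by omega)).mp h4

/-- SEL: the choice of `q`, from the lower bound for the number of primes. -/
theorem exists_prime_of (hC : ∃ x0 : ℕ, ∀ x : ℕ, x0 ≤ x →
    (x : ℝ) ≤ Real.log x * ((Finset.Ioc x (4 * x)).filter Nat.Prime).card) (r B : ℕ) :
    ∃ Q0 : ℕ, ∀ (Q : ℕ) (T : Finset ℕ) (N : ℕ), Q0 ≤ Q → Q.Prime → (∀ n ∈ T, n < Q) →
    Q ≤ T.card ^ 9 → N ≠ 0 → (∏ p ∈ N.primeFactors, p : ℕ) ≤ Q ^ B →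
    ∃ q : ℕ, q.Prime ∧ Q < q ∧ q ≤ 4 * Q ∧ ¬ q ∣ N ∧ ∃ n : Fin (r + 1) → ℕ, (∀ i, n i ∈ T) ∧ Dense r Q q n := by
  classical
  obtain ⟨x0, hx0⟩ := hC
  set E : ℝ := 6 * ((r : ℝ) + 1) ^ 2 + B + 1 with hE
  have hEpos : 0 < E := by positivity
  have hlo := (isLittleO_log_rpow_atTop (show (0:ℝ) < 1 / 9 by norm_num)).bound
    (show (0:ℝ) < 1 / (2 * E) by positivity)
  obtain ⟨x1, hx1⟩ := Filter.eventually_atTop.mp hlo
  obtain ⟨x2, hx2⟩ := exists_nat_ge x1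
  refine ⟨max (max x0 x2) (max 2 (2 * (r + 1))), ?_⟩
  intro Q T N hQ0 hQ hT hTQ hN hNB
  have hx0Q : x0 ≤ Q := le_trans (le_trans (le_max_left _ _) (le_max_left _ _)) hQ0
  have hx2Q : x2 ≤ Q := le_trans (le_trans (le_max_right _ _) (le_max_left _ _)) hQ0
  have h2Q : 2 ≤ Q := hQ.two_le
  have hrQ : 2 * (r + 1) ≤ Q := le_trans (le_trans (le_max_right _ _) (le_max_right _ _)) hQ0
  have hQR : (1:ℝ) < Q := by exact_mod_cast h2Q
  have hQpos : (0:ℝ) < Q := by linarith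
  have hlogpos : 0 < Real.log Q := Real.log_pos hQR
  have hl := hx1 Q (le_trans hx2 (by exact_mod_cast hx2Q))
  rw [Real.norm_of_nonneg hlogpos.le, Real.norm_of_nonneg (by positivity)] at hl
  have hp := hx0 Q hx0Q
  set P := ((Finset.Ioc Q (4 * Q)).filter Nat.Prime).card with hP
  have hT0 : 0 < T.card := by
    by_contra h
    have : T.card = 0 := by omega
    rw [this] at hTQ
    simp at hTQ
    omega
  have hTR : (0:ℝ) < T.card := by exact_mod_cast hT0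
  -- `Q ^ (1/9) ≤ T.card`
  have hroot : (Q:ℝ) ^ (1 / 9 : ℝ) ≤ T.card := by
    have h1 : (Q:ℝ) ≤ (T.card : ℝ) ^ 9 := by exact_mod_cast hTQ
    calc (Q:ℝ) ^ (1 / 9 : ℝ) ≤ ((T.card : ℝ) ^ 9) ^ (1 / 9 : ℝ) :=
          Real.rpow_le_rpow hQpos.le h1 (by norm_num)
      _ = T.card := by
          rw [← Real.rpow_natCast, ← Real.rpow_mul hTR.le]
          norm_num
  have hD := card_dvd_le (Q := Q) (N := N) (B := B) h2Q hN hNB
  have hcount : 3 * (2 * (r + 1) ^ 2 * Q / T.card)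
        + ((Finset.Ioc Q (4 * Q)).filter (fun q => q.Prime ∧ q ∣ N)).card < P := by
    have h1 : ((2 * (r + 1) ^ 2 * Q / T.card : ℕ) : ℝ) ≤ 2 * ((r:ℝ) + 1) ^ 2 * Q / T.card := by
      have := @Nat.cast_div_le ℝ _ _ _ (2 * (r + 1) ^ 2 * Q) T.card
      push_cast at this ⊢
      exact this
    set U := (Q:ℝ) ^ (1 / 9 : ℝ) with hU
    have hUpos : 0 < U := by positivity
    have h2 : 2 * ((r:ℝ) + 1) ^ 2 * Q / T.card ≤ 2 * ((r:ℝ) + 1) ^ 2 * Q / U :=
      div_le_div_of_nonneg_left (by positivity) hUpos hroot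
    have hUQ : U ≤ Q := by
      rw [hU]
      calc (Q:ℝ) ^ (1 / 9 : ℝ) ≤ (Q:ℝ) ^ (1 : ℝ) :=
            Real.rpow_le_rpow_of_exponent_le hQR.le (by norm_num)
        _ = Q := Real.rpow_one _
    have h3 : (B:ℝ) ≤ B * (Q / U) := by
      have : 1 ≤ (Q:ℝ) / U := by rw [le_div_iff₀ hUpos]; linarith
      nlinarith [Nat.cast_nonneg (α := ℝ) B]
    have h4 : (Q:ℝ) / Real.log Q ≤ P := by
      rw [div_le_iff₀ hlogpos]; linarith
    have h5 : E * (Q / U) < Q / Real.log Q := by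
      rw [lt_div_iff₀ hlogpos]
      have h6 : Real.log Q * (2 * E) ≤ U := by
        have := mul_le_mul_of_nonneg_right hl (show (0:ℝ) ≤ 2 * E by positivity)
        calc Real.log Q * (2 * E) ≤ 1 / (2 * E) * U * (2 * E) := this
          _ = U := by field_simp
      have h7 : E * (Q / U) * Real.log Q = (E * Real.log Q) / U * Q := by ring
      rw [h7]
      have h8 : (E * Real.log Q) / U < 1 := by
        rw [div_lt_one hUpos]
        have : 0 < E * Real.log Q := by positivity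
        nlinarith
      nlinarith
    have h9 : (3 * (2 * (r + 1) ^ 2 * Q / T.card : ℕ) : ℝ) + B < P := by
      calc (3 * (2 * (r + 1) ^ 2 * Q / T.card : ℕ) : ℝ) + B
          ≤ 3 * (2 * ((r:ℝ) + 1) ^ 2 * Q / U) + B * (Q / U) := by linarith
        _ = (6 * ((r:ℝ) + 1) ^ 2 + B) * (Q / U) := by ring
        _ ≤ E * (Q / U) := by
            apply mul_le_mul_of_nonneg_right _ (by positivity)
            rw [hE]; linarith
        _ < Q / Real.log Q := h5
        _ ≤ P := h4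
    have h10 : 3 * (2 * (r + 1) ^ 2 * Q / T.card) + B < P := by exact_mod_cast h9
    omega
  obtain ⟨q, hq1, hq2, hq3, hq4, b, hb⟩ := choice_q Q (r + 1) N hQ (by omega) hrQ T hT hT0 hcount
  refine ⟨q, hq1, hq2, hq3, hq4, ?_⟩
  choose! n hn using hb
  refine ⟨fun i => n i.val, fun i => (hn i.val i.isLt).1, b, fun i => (hn i.val i.isLt).2⟩

end Pool.Agent.Helper48.ZE
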